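import Mathlib

set_option autoImplicit false

namespace Pool.Agent.Results.MP_b1d8d5_co.Coils

def IsQuasigroup {S : Type} (op : S → S → S) : Prop :=
  (∀ a b : S, ∃! x : S, op a x = b) ∧ (∀ a b : S, ∃! x : S, op x a = b)

def IsConj321 {S : Type} (op cj : S → S → S) : Prop :=
  ∀ x y z : S, cj z y = x ↔ op x y = z

def Orthogonal {S : Type} (op st : S → S → S) : Prop :=
  ¬ ∃ a b c d : S, a ≠ b ∧ c ≠ d ∧ op a c = op b d ∧ st a c = st b d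

def T : Fin 12 → Fin 12 → Fin 12 :=
  ![![0, 2, 6, 5, 9, 7, 1, 4, 11, 3, 8, 10],
    ![8, 1, 3, 7, 0, 10, 11, 2, 5, 6, 4, 9],
    ![11, 9, 2, 4, 8, 1, 10, 6, 3, 0, 7, 5],
    ![2, 6, 10, 3, 5, 9, 0, 11, 7, 4, 1, 8],
    ![10, 3, 7, 11, 4, 0, 9, 1, 6, 8, 5, 2],
    ![1, 11, 4, 8, 6, 5, 3, 10, 2, 7, 9, 0],
    ![7, 10, 5, 9, 2, 4, 6, 8, 0, 11, 3, 1],
    ![5, 8, 11, 0, 10, 3, 2, 7, 9, 1, 6, 4],
    ![4, 0, 9, 6, 1, 11, 5, 3, 8, 10, 2, 7],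
    ![6, 5, 1, 10, 7, 2, 8, 0, 4, 9, 11, 3],
    ![3, 7, 0, 2, 11, 8, 4, 9, 1, 5, 10, 6],
    ![9, 4, 8, 1, 3, 6, 7, 5, 10, 2, 0, 11]]

def C : Fin 12 → Fin 12 → Fin 12 :=
  ![![0, 8, 10, 7, 1, 4, 3, 9, 6, 2, 11, 5],
    ![5, 1, 9, 11, 8, 2, 0, 4, 10, 7, 3, 6],
    ![3, 0, 2, 10, 6, 9, 7, 1, 5, 11, 8, 4],
    ![10, 4, 1, 3, 11, 7, 5, 8, 2, 0, 6, 9],
    ![8, 11, 5, 2, 4, 6, 10, 0, 9, 3, 1, 7],
    ![7, 9, 6, 0, 3, 5, 8, 11, 1, 10, 4, 2],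
    ![9, 3, 0, 8, 5, 11, 6, 2, 4, 1, 7, 10],
    ![6, 10, 4, 1, 9, 0, 11, 7, 3, 5, 2, 8],
    ![1, 7, 11, 5, 2, 10, 9, 6, 8, 4, 0, 3],
    ![11, 2, 8, 6, 0, 3, 4, 10, 7, 9, 5, 1],
    ![4, 6, 3, 9, 7, 1, 2, 5, 11, 8, 10, 0],
    ![2, 5, 7, 4, 10, 8, 1, 3, 0, 6, 9, 11]]

theorem qa : ∀ a b : Fin 12, ∃ x : Fin 12, T a x = b ∧ ∀ y : Fin 12, T a y = b → y = x := by
  decide +kernel

theorem qb : ∀ a b : Fin 12, ∃ x : Fin 12, T x a = b ∧ ∀ y : Fin 12, T y a = b → y = x := by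
  decide +kernel

theorem qc : ∀ x y z : Fin 12, C z y = x ↔ T x y = z := by
  decide +kernel

theorem qd : ∀ a b c d : Fin 12, T a c = T b d → C a c = C b d → a = b := by
  decide +kernel

theorem qe : ∀ x : Fin 12, T x x = x := by
  decide +kernel

theorem result :
    ∃ op cj : Fin 12 → Fin 12 → Fin 12, IsQuasigroup op ∧ (∀ x, op x x = x) ∧
      IsConj321 op cj ∧ Orthogonal op cj := by
  refine ⟨T, C, ⟨qa, qb⟩, qe, qc, ?_⟩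
  rintro ⟨a, b, c, d, h1, -, h3, h4⟩
  exact h1 (qd a b c d h3 h4)

end Pool.Agent.Results.MP_b1d8d5_co.Coils
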